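import Mathlib

/-!
# Numerical end of the zero-one law (project ZL, part S2; helper186)
-/

set_option autoImplicit false

namespace Pool.Agent.N186.ZL

open Finset

/-! ### Multichoose -/

theorem mc_le (r k : ℕ) : r.multichoose k ≤ (k + 1) ^ r := by
  induction r generalizing k with
  | zero =>
    cases k with
    | zero => simp
    | succ k => simp
  | succ r ih =>
    induction k with
    | zero => simp
    | succ k ihk =>
      rw [Nat.multichoose_succ_succ]
      have h1 := ih (k + 1)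
      calc r.multichoose (k + 1) + (r + 1).multichoose k
          ≤ (k + 1 + 1) ^ r + (k + 1) ^ (r + 1) := Nat.add_le_add h1 ihk
        _ ≤ (k + 1 + 1) ^ r + (k + 1) * (k + 1 + 1) ^ r := by
            rw [pow_succ, mul_comm ((k + 1) ^ r)]
            gcongr
            omega
        _ = (k + 1 + 1) ^ (r + 1) := by ring

theorem mc_mono {r : ℕ} (hr : 1 ≤ r) : Monotone (fun k => r.multichoose k) := by
  apply monotone_nat_of_le_succ
  intro k
  obtain ⟨d, rfl⟩ : ∃ d, r = d + 1 := ⟨r - 1, by omega⟩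
  show (d + 1).multichoose k ≤ (d + 1).multichoose (k + 1)
  rw [Nat.multichoose_succ_succ]
  omega

theorem mc_pos {r : ℕ} (hr : 1 ≤ r) (k : ℕ) : 1 ≤ r.multichoose k := by
  have h := mc_mono hr (Nat.zero_le k)
  simpa using h

/-! ### The inversion -/

theorem coeff_one_sub (r i : ℕ) :
    PowerSeries.coeff i ((1 - PowerSeries.X : PowerSeries ℝ) ^ r) = (-1) ^ i * (r.choose i : ℝ) := by
  have e : ((1 - PowerSeries.X : PowerSeries ℝ) ^ r) =
      (((Polynomial.C (-1 : ℝ)) ^ r * (Polynomial.X + Polynomial.C (-1 : ℝ)) ^ r : Polynomial ℝ) :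
        PowerSeries ℝ) := by
    rw [← mul_pow]
    push_cast
    congr 1
    simp [sub_eq_add_neg]
  rw [e, Polynomial.coeff_coe, ← Polynomial.C_pow, Polynomial.coeff_C_mul, Polynomial.coeff_X_add_C_pow,
    ← mul_assoc, ← pow_add]
  by_cases h : i ≤ r
  · congr 1
    have h1 : r + (r - i) = i + 2 * (r - i) := by omega
    rw [h1, pow_add, pow_mul]
    simp
  · rw [Nat.choose_eq_zero_of_lt (by omega)]
    simp

/-- the inverse of the alternating convolution -/
theorem invert {r : ℕ} (hr : 1 ≤ r) (s y : ℕ → ℝ)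
    (hy : ∀ k, y k = ∑ i ∈ range (k + 1), (-1) ^ i * (r.choose i : ℝ) * s (k - i)) (k : ℕ) :
    s k = ∑ j ∈ range (k + 1), (r.multichoose (k - j) : ℝ) * y j := by
  obtain ⟨d, rfl⟩ : ∃ d, r = d + 1 := ⟨r - 1, by omega⟩
  have hmc : ∀ n, (d + 1).multichoose n = (d + n).choose d := by
    intro n
    rw [Nat.multichoose_eq, show d + 1 + n - 1 = d + n by omega, ← Nat.choose_symm_add]
  have hY : (1 - PowerSeries.X : PowerSeries ℝ) ^ (d + 1) * PowerSeries.mk s = PowerSeries.mk y := by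
    ext n
    rw [PowerSeries.coeff_mul, PowerSeries.coeff_mk, hy n,
      Finset.Nat.sum_antidiagonal_eq_sum_range_succ_mk]
    apply sum_congr rfl
    intro i _
    rw [coeff_one_sub, PowerSeries.coeff_mk]
  have hQ := PowerSeries.mk_add_choose_mul_one_sub_pow_eq_one (S := ℝ) d
  have hS : PowerSeries.mk s = PowerSeries.mk y * PowerSeries.mk (fun n => ((d + n).choose d : ℝ)) := by
    rw [← hY]
    calc PowerSeries.mk s = (PowerSeries.mk (fun n => ((d + n).choose d : ℝ)) *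
        (1 - PowerSeries.X) ^ (d + 1)) * PowerSeries.mk s := by rw [hQ, one_mul]
      _ = _ := by ring
  have h1 := congrArg (PowerSeries.coeff k) hS
  rw [PowerSeries.coeff_mk, PowerSeries.coeff_mul, Finset.Nat.sum_antidiagonal_eq_sum_range_succ_mk] at h1
  rw [h1]
  apply sum_congr rfl
  intro j _
  rw [PowerSeries.coeff_mk, PowerSeries.coeff_mk, hmc, mul_comm]

/-! ### Log-convexity -/

theorem eps (α : ℕ → ℕ) (b : ℕ) (hb : 1 ≤ b) (h1 : ∀ n, α (n + 1) ≤ b ^ 2 * α n)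
    (h2 : ∀ n, α (n + 1) ^ 2 ≤ α n * α (n + 2))
    (h3 : ∀ n, b ^ (2 * n) ≤ (n + 1) ^ (b ^ 2) * α n) :
    ∃ C : ℝ, 0 < C ∧ ∀ n : ℕ, 1 ≤ n → ∀ j : ℕ,
      ((b : ℝ) ^ 2) ^ j * α n - α (n + j) ≤ j * (C / Real.sqrt n) * (((b : ℝ) ^ 2) ^ j * α n) := by
  have hpos : ∀ n, 0 < α n := by
    intro n
    rcases Nat.eq_zero_or_pos (α n) with h | h
    · have h4 := h3 n
      rw [h, mul_zero] at h4
      have h5 : 0 < b ^ (2 * n) := Nat.pow_pos hb
      omega
    · exact h
  have hposR : ∀ n, (0 : ℝ) < α n := fun n => by exact_mod_cast hpos n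
  set B : ℝ := (b : ℝ) ^ 2 with hB
  have hB1 : 1 ≤ B := by
    have : (1 : ℝ) ≤ b := by exact_mod_cast hb
    rw [hB]; exact one_le_pow₀ this
  have hB0 : 0 < B := by linarith
  have hla : 0 ≤ Real.log (α 0) := Real.log_nonneg (by exact_mod_cast hpos 0)
  let ρ : ℕ → ℝ := fun i => (α (i + 1) : ℝ) / α i
  have hρpos : ∀ i, 0 < ρ i := fun i => div_pos (hposR _) (hposR _)
  have hρmono : Monotone ρ := by
    apply monotone_nat_of_le_succ
    intro i
    show (α (i + 1) : ℝ) / α i ≤ (α (i + 1 + 1) : ℝ) / α (i + 1)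
    rw [div_le_div_iff₀ (hposR _) (hposR _)]
    have h4 : (α (i + 1) : ℝ) ^ 2 ≤ α i * α (i + 2) := by exact_mod_cast h2 i
    calc (α (i + 1) : ℝ) * α (i + 1) = (α (i + 1) : ℝ) ^ 2 := by ring
      _ ≤ α i * α (i + 2) := h4
      _ = _ := by ring
  have hρs : ∀ i, (α (i + 1) : ℝ) = ρ i * α i := fun i => by
    show (α (i + 1) : ℝ) = (α (i + 1) : ℝ) / α i * α i
    rw [div_mul_cancel₀ _ (hposR i).ne']
  have hρle : ∀ i, ρ i ≤ B := by
    intro i
    show (α (i + 1) : ℝ) / α i ≤ B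
    rw [div_le_iff₀ (hposR i), hB]
    exact_mod_cast h1 i
  have hup : ∀ n i, i ≤ n → (α i : ℝ) ≤ α 0 * ρ n ^ i := by
    intro n i
    induction i with
    | zero => intro _; simp
    | succ i ih =>
      intro hi
      rw [hρs i, pow_succ]
      calc ρ i * α i ≤ ρ n * (α 0 * ρ n ^ i) :=
            mul_le_mul (hρmono (by omega)) (ih (by omega)) (hposR i).le (hρpos n).le
        _ = _ := by ring
  have hdown : ∀ n j, (α n : ℝ) * ρ n ^ j ≤ α (n + j) := by
    intro n j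
    induction j with
    | zero => simp
    | succ j ih =>
      rw [← add_assoc, hρs (n + j), pow_succ]
      calc (α n : ℝ) * (ρ n ^ j * ρ n) = ρ n * ((α n : ℝ) * ρ n ^ j) := by ring
        _ ≤ ρ (n + j) * α (n + j) :=
            mul_le_mul (hρmono (by omega)) ih
              (mul_nonneg (hposR n).le (pow_nonneg (hρpos n).le _)) (hρpos _).le
  set C : ℝ := 2 * B + Real.log (α 0) with hC
  have hC0 : 0 < C := by positivity
  refine ⟨C, hC0, ?_⟩
  intro n hn j
  have hn1 : (1 : ℝ) ≤ n := by exact_mod_cast hn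
  have hn0 : (0 : ℝ) < n := by linarith
  have hs0 : 0 < Real.sqrt n := Real.sqrt_pos.2 hn0
  have hs1 : 1 ≤ Real.sqrt n := Real.one_le_sqrt.2 hn1
  have hss : Real.sqrt n * Real.sqrt n = n := Real.mul_self_sqrt hn0.le
  set q : ℝ := ρ n / B with hq
  have hq0 : 0 < q := div_pos (hρpos n) hB0
  have hq1 : q ≤ 1 := by rw [hq, div_le_one hB0]; exact hρle n
  have hq2 : 1 - C / Real.sqrt n ≤ q := by
    have e1 : B ^ n ≤ ((n : ℝ) + 1) ^ (b ^ 2) * α n := by
      have e0 : ((b ^ (2 * n) : ℕ) : ℝ) ≤ (((n + 1) ^ (b ^ 2) * α n : ℕ) : ℝ) := by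
        exact_mod_cast h3 n
      push_cast at e0
      rw [pow_mul] at e0
      exact e0
    have e2 : 1 ≤ ((n : ℝ) + 1) ^ (b ^ 2) * α 0 * q ^ n := by
      have e3 : B ^ n ≤ (((n : ℝ) + 1) ^ (b ^ 2) * α 0 * q ^ n) * B ^ n := by
        calc B ^ n ≤ ((n : ℝ) + 1) ^ (b ^ 2) * α n := e1
          _ ≤ ((n : ℝ) + 1) ^ (b ^ 2) * (α 0 * ρ n ^ n) :=
              mul_le_mul_of_nonneg_left (hup n n le_rfl) (by positivity)
          _ = _ := by
              have e7 : ρ n ^ n = q ^ n * B ^ n := by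
                rw [← mul_pow, hq, div_mul_cancel₀ _ hB0.ne']
              rw [e7]; ring
      have e4 : 0 < B ^ n := by positivity
      nlinarith
    have e5 : 0 ≤ B * Real.log ((n : ℝ) + 1) + Real.log (α 0) + n * Real.log q := by
      have e6 := Real.log_nonneg e2
      have e61 : ((n : ℝ) + 1) ^ (b ^ 2) ≠ 0 := by positivity
      rw [Real.log_mul (mul_ne_zero e61 (hposR 0).ne') (pow_pos hq0 n).ne',
        Real.log_mul e61 (hposR 0).ne', Real.log_pow, Real.log_pow] at e6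
      rw [hB]
      push_cast at e6
      exact e6
    have e7 : Real.log ((n : ℝ) + 1) ≤ 2 * Real.sqrt n := by
      have e8 : (n : ℝ) + 1 ≤ (1 + Real.sqrt n) ^ 2 := by nlinarith
      have e9 : Real.log ((n : ℝ) + 1) ≤ Real.log ((1 + Real.sqrt n) ^ 2) :=
        Real.log_le_log (by positivity) e8
      rw [Real.log_pow] at e9
      have e10 := Real.log_le_sub_one_of_pos (show (0 : ℝ) < 1 + Real.sqrt n by positivity)
      push_cast at e9
      linarith
    have e9 : Real.log (α 0) ≤ Real.log (α 0) * Real.sqrt n := by nlinarith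
    have e10 : -(C * Real.sqrt n) ≤ n * Real.log q := by
      have e11 : B * Real.log ((n : ℝ) + 1) ≤ B * (2 * Real.sqrt n) :=
        mul_le_mul_of_nonneg_left e7 hB0.le
      rw [hC]
      nlinarith
    have e12 : -(C / Real.sqrt n) ≤ Real.log q := by
      have e13 : -Real.log q ≤ C / Real.sqrt n := by
        rw [le_div_iff₀ hs0]
        have e14 : -Real.log q * Real.sqrt n * Real.sqrt n ≤ C * Real.sqrt n := by
          rw [mul_assoc, hss]
          linarith
        exact le_of_mul_le_mul_right e14 hs0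
      linarith
    calc 1 - C / Real.sqrt n = -(C / Real.sqrt n) + 1 := by ring
      _ ≤ Real.log q + 1 := by linarith
      _ ≤ Real.exp (Real.log q) := Real.add_one_le_exp _
      _ = q := Real.exp_log hq0
  have hbern : 1 - j * (C / Real.sqrt n) ≤ q ^ j := by
    have e1 := one_add_mul_le_pow (a := q - 1) (by linarith) j
    have e2 : (j : ℝ) * (1 - q) ≤ j * (C / Real.sqrt n) :=
      mul_le_mul_of_nonneg_left (by linarith) (Nat.cast_nonneg j)
    have e3 : 1 + (q - 1) = q := by ring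
    rw [e3] at e1
    linarith
  have e1 : (α n : ℝ) * (B ^ j * q ^ j) ≤ α (n + j) := by
    have e2 := hdown n j
    have e3 : B ^ j * q ^ j = ρ n ^ j := by
      rw [← mul_pow, hq, mul_div_cancel₀ _ hB0.ne']
    rw [e3]; exact e2
  have hBj0 : 0 < B ^ j := by positivity
  have e4 : (α n : ℝ) * (B ^ j * (1 - j * (C / Real.sqrt n))) ≤ (α n : ℝ) * (B ^ j * q ^ j) :=
    mul_le_mul_of_nonneg_left (mul_le_mul_of_nonneg_left hbern hBj0.le) (hposR n).le
  nlinarith

/-! ### One level -/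

/-- the estimate for one `n` -/
theorem level {r : ℕ} (hr : 1 ≤ r) {s : ℕ → ℕ} {E : ℕ → ℕ → ℕ} {a δ : ℝ} (ha : 0 ≤ a) (hδ : 0 ≤ δ)
    (k0 : (s 0 : ℝ) = a) (k0' : ∀ k, E 0 k = s k)
    (k1 : ∀ k, 1 ≤ k → ∑ i ∈ range (k + 1), (-1 : ℤ) ^ i * (E i (k - i) : ℤ) = 0)
    (k2 : ∀ i k, r < i → E i k = 0)
    (k3 : ∀ i k, i ≤ r → |(r.choose i : ℝ) * s k - E i k| ≤ (r.multichoose k : ℝ) * a * δ) (k : ℕ) :
    |(s k : ℝ) - (r.multichoose k : ℝ) * a| ≤ k * (r.multichoose k : ℝ) * (r * (r.multichoose k : ℝ) * a * δ) := by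
  set y : ℕ → ℝ := fun k => ∑ i ∈ range (k + 1), (-1) ^ i * (r.choose i : ℝ) * (s (k - i) : ℝ) with hy
  have hinv := invert hr (fun k => (s k : ℝ)) y (fun k => rfl)
  have hmono : ∀ {i j : ℕ}, i ≤ j → (r.multichoose i : ℝ) ≤ r.multichoose j := fun h => by
    exact_mod_cast mc_mono hr h
  have hy0 : y 0 = a := by simp [hy, k0]
  have hyk : ∀ j, 1 ≤ j → |y j| ≤ r * (r.multichoose j : ℝ) * a * δ := by
    intro j hj
    have h1 : (∑ i ∈ range (j + 1), (-1 : ℝ) ^ i * (E i (j - i) : ℝ)) = 0 := by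
      exact_mod_cast k1 j hj
    have h2 : y j = ∑ i ∈ range (j + 1), (-1 : ℝ) ^ i * ((r.choose i : ℝ) * s (j - i) - E i (j - i)) := by
      rw [← sub_zero (y j), ← h1, hy, ← sum_sub_distrib]
      apply sum_congr rfl
      intro i _
      ring
    rw [h2]
    have h3 : |∑ i ∈ range (j + 1), (-1 : ℝ) ^ i * ((r.choose i : ℝ) * s (j - i) - E i (j - i))| ≤
        ∑ i ∈ range (j + 1), |(r.choose i : ℝ) * s (j - i) - E i (j - i)| := by
      refine (abs_sum_le_sum_abs _ _).trans (le_of_eq ?_)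
      apply sum_congr rfl
      intro i _
      rw [abs_mul, abs_pow, abs_neg, abs_one, one_pow, one_mul]
    refine h3.trans ?_
    have h4 : ∑ i ∈ range (j + 1), |(r.choose i : ℝ) * s (j - i) - E i (j - i)| ≤
        ∑ i ∈ range (j + 1), (if 1 ≤ i ∧ i ≤ r then (r.multichoose j : ℝ) * a * δ else 0) := by
      apply sum_le_sum
      intro i hi
      split_ifs with h
      · refine (k3 i (j - i) h.2).trans ?_
        have := hmono (Nat.sub_le j i)
        gcongr
      · rcases Nat.eq_zero_or_pos i with h5 | h5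
        · rw [h5, Nat.choose_zero_right, Nat.sub_zero, k0']
          simp
        · have h6 : r < i := by
            by_contra h7
            exact h ⟨h5, not_lt.1 h7⟩
          rw [Nat.choose_eq_zero_of_lt h6, k2 i _ h6]
          simp
    refine h4.trans ?_
    rw [← sum_filter, sum_const, nsmul_eq_mul]
    have h5 : ((range (j + 1)).filter (fun i => 1 ≤ i ∧ i ≤ r)).card ≤ r := by
      calc ((range (j + 1)).filter (fun i => 1 ≤ i ∧ i ≤ r)).card ≤ (Icc 1 r).card := by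
            apply card_le_card
            intro i hi
            rw [mem_filter] at hi
            exact mem_Icc.2 hi.2
        _ = r := by simp
    have h6 : (((range (j + 1)).filter (fun i => 1 ≤ i ∧ i ≤ r)).card : ℝ) ≤ r := by exact_mod_cast h5
    have h7 : 0 ≤ (r.multichoose j : ℝ) * a * δ := by positivity
    calc (((range (j + 1)).filter (fun i => 1 ≤ i ∧ i ≤ r)).card : ℝ) * ((r.multichoose j : ℝ) * a * δ)
        ≤ r * ((r.multichoose j : ℝ) * a * δ) := mul_le_mul_of_nonneg_right h6 h7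
      _ = _ := by ring
  have h1 := hinv k
  rw [sum_range_succ', Nat.sub_zero, hy0] at h1
  have h2 : (s k : ℝ) - (r.multichoose k : ℝ) * a =
      ∑ j ∈ range k, (r.multichoose (k - (j + 1)) : ℝ) * y (j + 1) := by
    rw [h1]; ring
  rw [h2]
  calc |∑ j ∈ range k, (r.multichoose (k - (j + 1)) : ℝ) * y (j + 1)|
      ≤ ∑ j ∈ range k, |(r.multichoose (k - (j + 1)) : ℝ) * y (j + 1)| := abs_sum_le_sum_abs _ _
    _ ≤ ∑ j ∈ range k, (r.multichoose k : ℝ) * (r * (r.multichoose k : ℝ) * a * δ) := by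
        apply sum_le_sum
        intro j hj
        have hj' : j < k := mem_range.1 hj
        rw [abs_mul, abs_of_nonneg (Nat.cast_nonneg _)]
        have e1 := hmono (show k - (j + 1) ≤ k by omega)
        have e2 := hmono (show j + 1 ≤ k by omega)
        refine mul_le_mul e1 ((hyk (j + 1) (by omega)).trans ?_) (abs_nonneg _) (by positivity)
        gcongr
    _ = _ := by
        rw [sum_const, card_range, nsmul_eq_mul]
        ring

theorem numeric (b m r : ℕ) (hb : 1 ≤ b) (hr : r = b ^ (2 * m)) (nrk hrk : ℕ → ℕ) (s : ℕ → ℕ → ℕ)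
    (E : ℕ → ℕ → ℕ → ℕ) (L : ℕ → ℕ → ℕ)
    (h1 : ∀ n, nrk (2 * (n + 1)) ≤ b ^ 2 * nrk (2 * n))
    (h2 : ∀ n, nrk (2 * (n + 1)) ^ 2 ≤ nrk (2 * n) * nrk (2 * (n + 2)))
    (h3 : ∀ n, b ^ (2 * n) ≤ (n + 1) ^ (b ^ 2) * nrk (2 * n))
    (h4 : ∀ n, nrk (2 * n + 1) ≤ b * nrk (2 * n)) (h5 : ∀ n, hrk (2 * n) ≤ hrk (2 * n + 1))
    (k0 : ∀ n, s n 0 = nrk (2 * n)) (k0' : ∀ n k, E n 0 k = s n k)
    (k1 : ∀ n k, 1 ≤ k → ∑ i ∈ Finset.range (k + 1), (-1 : ℤ) ^ i * (E n i (k - i) : ℤ) = 0)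
    (k2 : ∀ n i k, r < i → E n i k = 0)
    (k3 : ∀ n i k, ((r.choose i : ℤ) * s n k - E n i k) ^ 2 ≤ (r.multichoose k : ℤ) ^ 2 *
      nrk (2 * n) * (2 * r.choose i * (r.choose i * nrk (2 * n) - L n i)))
    (k4 : ∀ n i, r.choose i * nrk (2 * n) + nrk (2 * (n + m * i)) ≤ L n i + r ^ i * nrk (2 * n))
    (k5 : ∀ n N, ∃ g : ℕ → ℕ, ∑ k ∈ Finset.range N, g k ≤ hrk (2 * n) ∧
      ∀ k < N, s n k ≤ g k + (r.multichoose k - 1) * nrk (2 * n)) :
    ∃ κ : ℝ, 0 < κ ∧ ∃ C : ℝ, 0 < C ∧ ∀ N : ℕ, 1 ≤ N → (nrk N : ℝ) * (N : ℝ) ^ κ ≤ C * hrk N := by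
  have hr1 : 1 ≤ r := by rw [hr]; exact Nat.one_le_pow _ _ hb
  have hr1' : (1 : ℝ) ≤ r := by exact_mod_cast hr1
  obtain ⟨C2, hC2, heps⟩ := eps (fun n => nrk (2 * n)) b hb h1 h2 h3
  set D : ℝ := Real.sqrt (2 * 2 ^ r * m * r * r ^ r * C2) with hD
  have hD0 : 0 ≤ D := Real.sqrt_nonneg _
  have hDsq : D ^ 2 = 2 * 2 ^ r * m * r * r ^ r * C2 := Real.sq_sqrt (by positivity)
  -- the difference of `Λ s` and `E`
  have hk3 : ∀ n : ℕ, 1 ≤ n → ∀ i k : ℕ, i ≤ r → |(r.choose i : ℝ) * s n k - E n i k| ≤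
      (r.multichoose k : ℝ) * (nrk (2 * n) : ℝ) * (D / Real.sqrt (Real.sqrt n)) := by
    intro n hn i k hi
    have hn0 : (0 : ℝ) < n := by exact_mod_cast hn
    have hs0 : 0 < Real.sqrt n := Real.sqrt_pos.2 hn0
    have hss0 : 0 < Real.sqrt (Real.sqrt n) := Real.sqrt_pos.2 hs0
    apply abs_le_of_sq_le_sq _ (by positivity)
    have e1 : ((r.choose i : ℝ) * s n k - E n i k) ^ 2 ≤ (r.multichoose k : ℝ) ^ 2 *
      nrk (2 * n) * (2 * r.choose i * (r.choose i * nrk (2 * n) - L n i)) := by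
      exact_mod_cast k3 n i k
    have e2 : (r.choose i : ℝ) * nrk (2 * n) - L n i ≤
        (m * r) * (C2 / Real.sqrt n) * (r ^ r * nrk (2 * n)) := by
      have e3 : (r.choose i : ℝ) * nrk (2 * n) + nrk (2 * (n + m * i)) ≤ L n i + (r : ℝ) ^ i * nrk (2 * n) := by
        exact_mod_cast k4 n i
      have e4 := heps n hn (m * i)
      have e5 : ((b : ℝ) ^ 2) ^ (m * i) = (r : ℝ) ^ i := by
        rw [hr]
        push_cast
        rw [← pow_mul, ← pow_mul]
        congr 1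
        ring
      rw [e5] at e4
      have e6 : ((m * i : ℕ) : ℝ) * (C2 / Real.sqrt n) * ((r : ℝ) ^ i * nrk (2 * n)) ≤
          (m * r) * (C2 / Real.sqrt n) * (r ^ r * nrk (2 * n)) := by
        push_cast
        have hi' : (i : ℝ) ≤ r := by exact_mod_cast hi
        gcongr
      linarith
    have e3 : (r.choose i : ℝ) ≤ 2 ^ r := by exact_mod_cast Nat.choose_le_two_pow r i
    have e4 : (2 * (r.choose i : ℝ) * (r.choose i * nrk (2 * n) - L n i)) ≤
        2 * 2 ^ r * ((m * r) * (C2 / Real.sqrt n) * (r ^ r * nrk (2 * n))) := by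
      calc (2 * (r.choose i : ℝ) * (r.choose i * nrk (2 * n) - L n i))
          ≤ (2 * (r.choose i : ℝ) * ((m * r) * (C2 / Real.sqrt n) * (r ^ r * nrk (2 * n)))) :=
            mul_le_mul_of_nonneg_left e2 (by positivity)
        _ ≤ _ := by gcongr
    refine e1.trans ((mul_le_mul_of_nonneg_left e4 (by positivity)).trans (le_of_eq ?_))
    rw [mul_pow, div_pow, hDsq, Real.sq_sqrt hs0.le]
    ring
  -- constants
  set A : ℝ := 2 * r * D + 1 with hA
  have hA0 : 0 < A := by positivity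
  set e : ℝ := 2 * r + 1 with he
  have he0 : 0 < e := by positivity
  set κ : ℝ := 1 / (4 * e) with hκ
  have hκ0 : 0 < κ := by positivity
  set c : ℝ := (1 / A) ^ (1 / e) with hc
  have hc0 : 0 < c := by positivity
  have hc1 : c ≤ 1 := by
    apply Real.rpow_le_one (by positivity) _ (by positivity)
    rw [div_le_one hA0, hA]
    have : 0 ≤ 2 * (r : ℝ) * D := by positivity
    linarith
  have hce : c ^ (2 * r + 1) = 1 / A := by
    rw [hc, ← Real.rpow_natCast, ← Real.rpow_mul (by positivity)]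
    have : 1 / e * ((2 * r + 1 : ℕ) : ℝ) = 1 := by
      push_cast
      rw [← he]
      field_simp
    rw [this, Real.rpow_one]
  -- the main estimate at even arguments
  have hmain : ∀ n : ℕ, 1 ≤ n → c / 4 * (n : ℝ) ^ κ * nrk (2 * n) ≤ hrk (2 * n) := by
    intro n hn
    have hn0 : (0 : ℝ) < n := by exact_mod_cast hn
    have hs0 : 0 < Real.sqrt n := Real.sqrt_pos.2 hn0
    have hss0 : 0 < Real.sqrt (Real.sqrt n) := Real.sqrt_pos.2 hs0
    have hnκ : 0 < (n : ℝ) ^ κ := by positivity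
    have hlev := level (s := s n) (E := E n) (a := (nrk (2 * n) : ℝ)) (δ := D / Real.sqrt (Real.sqrt n))
      hr1 (Nat.cast_nonneg _) (by positivity) (by rw [k0 n]) (k0' n) (k1 n) (k2 n) (hk3 n hn)
    set t : ℝ := c * (n : ℝ) ^ κ with ht
    have ht0 : 0 < t := by positivity
    have hte : t ^ (2 * r + 1) = Real.sqrt (Real.sqrt n) / A := by
      rw [ht, mul_pow, hce, ← Real.rpow_natCast, ← Real.rpow_mul hn0.le]
      have e1 : κ * ((2 * r + 1 : ℕ) : ℝ) = 1 / 2 * (1 / 2) := by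
        push_cast
        rw [← he, hκ]
        field_simp
        norm_num
      rw [e1, Real.rpow_mul hn0.le, ← Real.sqrt_eq_rpow, ← Real.sqrt_eq_rpow]
      ring
    -- the lower bound for `g k`
    rcases lt_or_ge t 1 with ht1 | ht1
    · obtain ⟨g, hg1, hg2⟩ := k5 n 1
      have e1 := hg2 0 one_pos
      rw [k0 n, Nat.multichoose_zero_right, Nat.sub_self, zero_mul, add_zero] at e1
      rw [sum_range_one] at hg1
      have e2 : (nrk (2 * n) : ℝ) ≤ hrk (2 * n) := by exact_mod_cast e1.trans hg1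
      have e3 : 0 ≤ (nrk (2 * n) : ℝ) := Nat.cast_nonneg _
      have e4 : c / 4 * (n : ℝ) ^ κ = t / 4 := by rw [ht]; ring
      rw [e4]
      nlinarith
    · set N : ℕ := ⌊t⌋₊ with hN
      have hNt : (N : ℝ) ≤ t := Nat.floor_le ht0.le
      have hNt2 : t < N + 1 := Nat.lt_floor_add_one t
      have hN1 : 1 ≤ N := Nat.one_le_floor_iff _ |>.2 ht1
      have hN1' : (1 : ℝ) ≤ N := by exact_mod_cast hN1
      obtain ⟨g, hg1, hg2⟩ := k5 n N
      have hgk : ∀ k < N, (nrk (2 * n) : ℝ) / 2 ≤ g k := by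
        intro k hk
        have e1 := hlev k
        have e2 : (s n k : ℝ) ≤ g k + ((r.multichoose k : ℝ) - 1) * nrk (2 * n) := by
          have e3 : ((s n k : ℕ) : ℝ) ≤ ((g k + (r.multichoose k - 1) * nrk (2 * n) : ℕ) : ℝ) := by
            exact_mod_cast hg2 k hk
          push_cast [Nat.cast_sub (mc_pos hr1 k)] at e3
          exact e3
        have e3 : (k : ℝ) * (r.multichoose k : ℝ) * (r * (r.multichoose k : ℝ) * (nrk (2 * n) : ℝ) *
            (D / Real.sqrt (Real.sqrt n))) ≤ 1 / 2 * nrk (2 * n) := by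
          have e4 : (k : ℝ) * (r.multichoose k : ℝ) ^ 2 ≤ t ^ (2 * r + 1) := by
            have e5 : (k : ℝ) + 1 ≤ t := by
              have : (k : ℝ) + 1 ≤ N := by exact_mod_cast hk
              linarith
            have e6 : (r.multichoose k : ℝ) ≤ ((k : ℝ) + 1) ^ r := by exact_mod_cast mc_le r k
            calc (k : ℝ) * (r.multichoose k : ℝ) ^ 2 ≤ ((k : ℝ) + 1) * (((k : ℝ) + 1) ^ r) ^ 2 := by
                  gcongr
                  linarith
              _ = ((k : ℝ) + 1) ^ (2 * r + 1) := by ring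
              _ ≤ t ^ (2 * r + 1) := by gcongr
          rw [hte] at e4
          have e5 : (k : ℝ) * (r.multichoose k : ℝ) * (r * (r.multichoose k : ℝ) * (nrk (2 * n) : ℝ) *
            (D / Real.sqrt (Real.sqrt n))) = ((k : ℝ) * (r.multichoose k : ℝ) ^ 2) *
              (r * nrk (2 * n) * (D / Real.sqrt (Real.sqrt n))) := by ring
          rw [e5]
          refine (mul_le_mul_of_nonneg_right e4 (by positivity)).trans ?_
          have e6 : Real.sqrt (Real.sqrt n) / A * (r * nrk (2 * n) * (D / Real.sqrt (Real.sqrt n))) =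
              (r * D / A) * nrk (2 * n) := by
            field_simp
          rw [e6]
          apply mul_le_mul_of_nonneg_right _ (Nat.cast_nonneg _)
          rw [div_le_iff₀ hA0, hA]
          linarith
        have e4 := neg_abs_le ((s n k : ℝ) - (r.multichoose k : ℝ) * nrk (2 * n))
        linarith
      have e1 : (N : ℝ) * ((nrk (2 * n) : ℝ) / 2) ≤ hrk (2 * n) := by
        calc (N : ℝ) * ((nrk (2 * n) : ℝ) / 2) = ∑ k ∈ range N, (nrk (2 * n) : ℝ) / 2 := by
              rw [sum_const, card_range, nsmul_eq_mul]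
          _ ≤ ∑ k ∈ range N, (g k : ℝ) := sum_le_sum fun k hk => hgk k (mem_range.1 hk)
          _ ≤ _ := by exact_mod_cast hg1
      have e4 : c / 4 * (n : ℝ) ^ κ = t / 4 := by rw [ht]; ring
      rw [e4]
      have e5 : t ≤ 2 * N := by linarith
      have e3 : 0 ≤ (nrk (2 * n) : ℝ) := Nat.cast_nonneg _
      nlinarith
  have hzero : (nrk 0 : ℝ) ≤ hrk 0 := by
    obtain ⟨g, hg1, hg2⟩ := k5 0 1
    have e1 := hg2 0 one_pos
    rw [k0 0, Nat.multichoose_zero_right, Nat.sub_self, zero_mul, add_zero] at e1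
    rw [sum_range_one] at hg1
    exact_mod_cast e1.trans hg1
  have hb' : (1 : ℝ) ≤ b := by exact_mod_cast hb
  refine ⟨κ, hκ0, b * (3 : ℝ) ^ κ * (4 / c), by positivity, ?_⟩
  have h3κ : 1 ≤ (3 : ℝ) ^ κ := Real.one_le_rpow (by norm_num) hκ0.le
  have h4c : 1 ≤ 4 / c := by rw [le_div_iff₀ hc0]; linarith
  have key : ∀ n : ℕ, 1 ≤ n → ∀ N : ℕ, N ≤ 3 * n → (nrk (2 * n) : ℝ) * (N : ℝ) ^ κ ≤
      (3 : ℝ) ^ κ * (4 / c) * hrk (2 * n) := by
    intro n hn N hN
    have hn0 : (0 : ℝ) < n := by exact_mod_cast hn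
    have e1 : (N : ℝ) ^ κ ≤ (3 : ℝ) ^ κ * (n : ℝ) ^ κ := by
      rw [← Real.mul_rpow (by norm_num) hn0.le]
      apply Real.rpow_le_rpow (Nat.cast_nonneg _) _ hκ0.le
      exact_mod_cast hN
    have e2 := hmain n hn
    have e3 : (n : ℝ) ^ κ * nrk (2 * n) ≤ 4 / c * hrk (2 * n) := by
      rw [div_mul_eq_mul_div, le_div_iff₀ hc0]
      linarith
    calc (nrk (2 * n) : ℝ) * (N : ℝ) ^ κ ≤ (nrk (2 * n) : ℝ) * ((3 : ℝ) ^ κ * (n : ℝ) ^ κ) := by gcongr
      _ = (3 : ℝ) ^ κ * ((n : ℝ) ^ κ * nrk (2 * n)) := by ring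
      _ ≤ (3 : ℝ) ^ κ * (4 / c * hrk (2 * n)) := by gcongr
      _ = _ := by ring
  intro N hN
  obtain ⟨n, hn | hn⟩ : ∃ n, N = 2 * n ∨ N = 2 * n + 1 := ⟨N / 2, by omega⟩
  · rw [hn]
    have h6 := key n (by omega) (2 * n) (by omega)
    have h7 : (3 : ℝ) ^ κ * (4 / c) * hrk (2 * n) ≤ b * (3 : ℝ) ^ κ * (4 / c) * hrk (2 * n) := by
      have : 0 ≤ (3 : ℝ) ^ κ * (4 / c) * hrk (2 * n) := by positivity
      nlinarith
    exact h6.trans h7
  · rw [hn]
    have h6 : (nrk (2 * n + 1) : ℝ) ≤ b * nrk (2 * n) := by exact_mod_cast h4 n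
    have h7 : (hrk (2 * n) : ℝ) ≤ hrk (2 * n + 1) := by exact_mod_cast h5 n
    rcases Nat.eq_zero_or_pos n with h8 | h8
    · subst h8
      simp only [mul_zero, zero_add, Nat.cast_one, Real.one_rpow, mul_one] at h6 h7 ⊢
      have h9 : (b : ℝ) * 1 * 1 ≤ b * (3 : ℝ) ^ κ * (4 / c) := by gcongr
      have h10 : 0 ≤ (hrk 1 : ℝ) := Nat.cast_nonneg _
      nlinarith
    · have h9 := key n h8 (2 * n + 1) (by omega)
      calc (nrk (2 * n + 1) : ℝ) * ((2 * n + 1 : ℕ) : ℝ) ^ κ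
          ≤ (b * nrk (2 * n)) * ((2 * n + 1 : ℕ) : ℝ) ^ κ := by gcongr
        _ = b * ((nrk (2 * n) : ℝ) * ((2 * n + 1 : ℕ) : ℝ) ^ κ) := by ring
        _ ≤ b * ((3 : ℝ) ^ κ * (4 / c) * hrk (2 * n)) := by gcongr
        _ ≤ b * ((3 : ℝ) ^ κ * (4 / c) * hrk (2 * n + 1)) := by gcongr
        _ = _ := by ring

end Pool.Agent.N186.ZL
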